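import Mathlib

/-! Powers of `3` and `5` with given congruences and of comparable size. -/

set_option autoImplicit false

namespace Pool.Agent.K3h42.PH

/-- Differences `r a - q b` with natural `q ≥ 1`, `r` are dense. -/
lemma dens {a b : ℝ} (ha : 0 < a) (hb : 0 < b)
    (hab : ∀ k R : ℕ, 0 < k → (k : ℝ) * b ≠ R * a) (A η : ℝ) (hη : 0 < η) :
    ∃ q r : ℕ, 1 ≤ q ∧ A < r * a - q * b ∧ (r : ℝ) * a - q * b < A + η := by
  obtain ⟨n, hn⟩ := exists_nat_gt (a / η)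
  have hn0 : 0 < n := by
    have : (0 : ℝ) < n := lt_of_le_of_lt (by positivity) hn
    exact_mod_cast this
  obtain ⟨k, hk0, -, hk⟩ := Real.exists_nat_abs_mul_sub_round_le (b / a) hn0
  set Rz : ℤ := round ((k : ℝ) * (b / a)) with hRz
  have hn1 : (1 : ℝ) / (n + 1) < 1 := by
    rw [div_lt_one (by positivity)]
    have : (0 : ℝ) < n := by exact_mod_cast hn0
    linarith
  have hR0 : 0 ≤ Rz := by
    have h1 : (0 : ℝ) < k * (b / a) := by positivity
    have h2 := (abs_le.1 hk).2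
    have h3 : (-1 : ℝ) < Rz := by linarith
    have h4 : (-1 : ℤ) < Rz := by exact_mod_cast h3
    omega
  obtain ⟨R, hR⟩ := Int.eq_ofNat_of_zero_le hR0
  rw [hR] at hk
  rw [Int.cast_natCast] at hk
  -- the small number
  have hsm : |(k : ℝ) * b - R * a| < η := by
    have e1 : (k : ℝ) * b - R * a = a * (k * (b / a) - R) := by field_simp
    rw [e1, abs_mul, abs_of_pos ha]
    have h1 : a * |(k : ℝ) * (b / a) - R| ≤ a * (1 / (n + 1)) := mul_le_mul_of_nonneg_left hk ha.le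
    have h2 : a * (1 / ((n : ℝ) + 1)) < η := by
      rw [mul_one_div, div_lt_iff₀ (by positivity)]
      rw [div_lt_iff₀ hη] at hn
      nlinarith
    linarith
  rcases lt_or_gt_of_ne (hab k R hk0) with hlt | hgt
  · set s : ℝ := R * a - k * b with hs
    have hs0 : 0 < s := by rw [hs]; linarith
    have hsη : s < η := by
      rw [abs_lt] at hsm
      rw [hs]; linarith [hsm.1]
    obtain ⟨q0, hq0⟩ := exists_nat_gt (-A / b)
    rw [div_lt_iff₀ hb] at hq0
    set T : ℝ := A + ((q0 : ℝ) + 1) * b with hT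
    have hT0 : 0 < T := by rw [hT]; nlinarith
    refine ⟨(q0 + 1) + (⌊T / s⌋₊ + 1) * k, (⌊T / s⌋₊ + 1) * R, by omega, ?_, ?_⟩
    · have h1 : T / s < ⌊T / s⌋₊ + 1 := Nat.lt_floor_add_one _
      rw [div_lt_iff₀ hs0] at h1
      push_cast
      have : ((⌊T / s⌋₊ : ℝ) + 1) * R * a - (((q0 : ℝ) + 1) + ((⌊T / s⌋₊ : ℝ) + 1) * k) * b =
        ((⌊T / s⌋₊ : ℝ) + 1) * s - ((q0 : ℝ) + 1) * b := by rw [hs]; ring
      rw [this]
      rw [hT] at h1
      rw [hT]
      linarith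
    · have h1 : (⌊T / s⌋₊ : ℝ) ≤ T / s := Nat.floor_le (by positivity)
      rw [le_div_iff₀ hs0] at h1
      push_cast
      have : ((⌊T / s⌋₊ : ℝ) + 1) * R * a - (((q0 : ℝ) + 1) + ((⌊T / s⌋₊ : ℝ) + 1) * k) * b =
        ((⌊T / s⌋₊ : ℝ) + 1) * s - ((q0 : ℝ) + 1) * b := by rw [hs]; ring
      rw [this]
      have h2 : ((⌊T / s⌋₊ : ℝ) + 1) * s ≤ T + s := by linarith
      rw [hT] at h2
      rw [hT] at *
      linarith
  · set s : ℝ := k * b - R * a with hs
    have hs0 : 0 < s := by rw [hs]; linarith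
    have hsη : s < η := by
      rw [abs_lt] at hsm
      linarith [hsm.2]
    obtain ⟨r0, hr0⟩ := exists_nat_gt ((A + b) / a)
    rw [div_lt_iff₀ ha] at hr0
    set T : ℝ := r0 * a - b - A with hT
    have hT0 : 0 < T := by rw [hT]; linarith
    have hc : 0 < ⌈T / s⌉₊ := Nat.ceil_pos.2 (by positivity)
    obtain ⟨l, hl⟩ := Nat.exists_eq_succ_of_ne_zero hc.ne'
    have h1 : (l : ℝ) * s < T := by
      have : (l : ℝ) < T / s := by
        apply Nat.lt_ceil.1
        omega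
      rwa [lt_div_iff₀ hs0] at this
    have h2 : T ≤ ((l : ℝ) + 1) * s := by
      have : T / s ≤ ⌈T / s⌉₊ := Nat.le_ceil _
      rw [hl] at this
      push_cast at this
      rwa [div_le_iff₀ hs0] at this
    refine ⟨1 + l * k, r0 + l * R, by omega, ?_, ?_⟩
    · push_cast
      have : ((r0 : ℝ) + l * R) * a - (1 + (l : ℝ) * k) * b = (r0 : ℝ) * a - b - l * s := by
        rw [hs]; ring
      rw [this]
      rw [hT] at h1
      linarith
    · push_cast
      have : ((r0 : ℝ) + l * R) * a - (1 + (l : ℝ) * k) * b = (r0 : ℝ) * a - b - l * s := by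
        rw [hs]; ring
      rw [this]
      rw [hT] at h2
      linarith

lemma indep (k R : ℕ) (hk : 0 < k) : (k : ℝ) * Real.log 5 ≠ R * Real.log 3 := by
  intro h
  rw [← Real.log_pow, ← Real.log_pow] at h
  have h1 : (5 : ℝ) ^ k = 3 ^ R := Real.log_injOn_pos (by simp [Set.mem_Ioi]) (by simp [Set.mem_Ioi]) h
  have h2 : (5 : ℕ) ^ k = 3 ^ R := by exact_mod_cast h1
  have h3 : 5 ∣ 3 ^ R := by rw [← h2]; exact dvd_pow_self 5 hk.ne'
  have h4 : 5 ∣ 3 := Nat.Prime.dvd_of_dvd_pow (by norm_num) h3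
  norm_num at h4

/-- The powers of `3` and `5`. -/
lemma exists_ij (m : ℕ) : ∃ i j : ℕ, 1 ≤ i ∧ 1 ≤ j ∧ 5 ^ j < 3 ^ i ∧ 3 ^ i < 2 * 5 ^ j ∧
    ((11 : ℤ) ^ (m + 1) ∣ 3 ^ (i + 1) - 5 ^ j) ∧ ((7 : ℤ) ^ (m + 1) ∣ 3 ^ (i + 1) + 5 ^ j) := by
  set P : ℕ := 15 * 77 ^ m with hP
  have hP1 : 15 ≤ P := by
    have : 0 < 77 ^ m := by positivity
    rw [hP]; omega
  have hPodd : Odd P := by
    rw [hP]
    exact Odd.mul (by decide) (Odd.pow (by decide))
  have hPR : (0 : ℝ) < P := by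
    have : 0 < P := by omega
    exact_mod_cast this
  have hl2 : 0 < Real.log 2 := Real.log_pos (by norm_num)
  have hl3 : 0 < Real.log 3 := Real.log_pos (by norm_num)
  have hl5 : 0 < Real.log 5 := Real.log_pos (by norm_num)
  obtain ⟨q, r, hq, h1, h2⟩ := dens hl3 hl5 indep (-((P : ℝ) - 1) * Real.log 3 / (2 * P))
    (Real.log 2 / (2 * P)) (by positivity)
  obtain ⟨i, hi⟩ : ∃ i, (2 * r + 1) * P = i + 1 :=
    Nat.exists_eq_add_one.2 (by positivity)
  have hi15 : 15 ≤ i + 1 := by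
    rw [← hi]
    nlinarith
  have hiR : ((i : ℝ) + 1) = (2 * r + 1) * P := by exact_mod_cast hi.symm
  rw [div_lt_iff₀ (by positivity)] at h1
  rw [← add_div, lt_div_iff₀ (by positivity)] at h2
  have hlogu : Real.log ((3 : ℝ) ^ i) = i * Real.log 3 := Real.log_pow _ _
  have hlogv : Real.log ((5 : ℝ) ^ (2 * P * q)) = (2 * P * q : ℕ) * Real.log 5 := Real.log_pow _ _
  push_cast at hlogv
  have hP77 : (P : ℕ) = 3 * 7 ^ m * (5 * 11 ^ m) := by
    rw [hP, show (77 : ℕ) = 7 * 11 by norm_num, mul_pow]; ring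
  refine ⟨i, 2 * P * q, by omega, by nlinarith, ?_, ?_, ?_, ?_⟩
  · have : Real.log ((5 : ℝ) ^ (2 * P * q)) < Real.log ((3 : ℝ) ^ i) := by
      rw [hlogu, hlogv]
      have e : (i : ℝ) = (2 * r + 1) * P - 1 := by linarith
      rw [e]
      nlinarith
    have := (Real.log_lt_log_iff (by positivity) (by positivity)).1 this
    exact_mod_cast this
  · have : Real.log ((3 : ℝ) ^ i) < Real.log (2 * (5 : ℝ) ^ (2 * P * q)) := by
      rw [Real.log_mul (by norm_num) (by positivity), hlogu, hlogv]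
      have e : (i : ℝ) = (2 * r + 1) * P - 1 := by linarith
      rw [e]
      nlinarith
    have := (Real.log_lt_log_iff (by positivity) (by positivity)).1 this
    exact_mod_cast this
  · rw [← hi]
    have a1 : (11 : ℤ) ^ (m + 1) ∣ (3 ^ 5) ^ 11 ^ m - 1 ^ 11 ^ m :=
      dvd_sub_pow_of_dvd_sub (p := 11) (by norm_num) m
    have a2 : (11 : ℤ) ^ (m + 1) ∣ (5 ^ 5) ^ 11 ^ m - 1 ^ 11 ^ m :=
      dvd_sub_pow_of_dvd_sub (p := 11) (by norm_num) m
    rw [one_pow] at a1 a2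
    have b1 : (3 : ℤ) ^ ((2 * r + 1) * P) ≡ 1 [ZMOD (11 : ℤ) ^ (m + 1)] := by
      have := ((Int.modEq_iff_dvd.2 a1).symm).pow ((2 * r + 1) * (3 * 7 ^ m))
      rw [one_pow, ← pow_mul, ← pow_mul] at this
      rw [hP77]
      convert this using 2
      ring
    have b2 : (5 : ℤ) ^ (2 * P * q) ≡ 1 [ZMOD (11 : ℤ) ^ (m + 1)] := by
      have := ((Int.modEq_iff_dvd.2 a2).symm).pow (2 * (3 * 7 ^ m) * q)
      rw [one_pow, ← pow_mul, ← pow_mul] at this
      rw [hP77]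
      convert this using 2
      ring
    exact (b2.trans b1.symm).dvd
  · rw [← hi]
    have a1 : (7 : ℤ) ^ (m + 1) ∣ (3 ^ 3) ^ 7 ^ m - (-1) ^ 7 ^ m :=
      dvd_sub_pow_of_dvd_sub (p := 7) (by norm_num) m
    have a2 : (7 : ℤ) ^ (m + 1) ∣ (5 ^ 6) ^ 7 ^ m - 1 ^ 7 ^ m :=
      dvd_sub_pow_of_dvd_sub (p := 7) (by norm_num) m
    rw [one_pow] at a2
    rw [Odd.neg_one_pow (Odd.pow (by decide))] at a1
    have hodd : Odd ((2 * r + 1) * (5 * 11 ^ m)) :=
      Odd.mul ⟨r, rfl⟩ (Odd.mul (by decide) (Odd.pow (by decide)))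
    have b1 : (3 : ℤ) ^ ((2 * r + 1) * P) ≡ -1 [ZMOD (7 : ℤ) ^ (m + 1)] := by
      have := ((Int.modEq_iff_dvd.2 a1).symm).pow ((2 * r + 1) * (5 * 11 ^ m))
      rw [hodd.neg_one_pow, ← pow_mul, ← pow_mul] at this
      rw [hP77]
      convert this using 2
      ring
    have b2 : (5 : ℤ) ^ (2 * P * q) ≡ 1 [ZMOD (7 : ℤ) ^ (m + 1)] := by
      have := ((Int.modEq_iff_dvd.2 a2).symm).pow ((5 * 11 ^ m) * q)
      rw [one_pow, ← pow_mul, ← pow_mul] at this
      rw [hP77]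
      convert this using 2
      ring
    have := b1.add b2
    rw [neg_add_cancel] at this
    exact (Int.modEq_zero_iff_dvd.1 this)

end Pool.Agent.K3h42.PH
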