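import Pool.Agent.K3h42.PH.Dens
import Pool.Agent.H78R2.Phil.Main

/-! Philippon's inequality fails for `B = 3` and `α + ε ≤ 4 / 3`. -/

set_option autoImplicit false

namespace Pool.Agent.K3h42.PH

open Pool.Agent.H78R2.Abc Pool.Agent.H78R2.Phil

lemma ht_neg (r : ℚ) : ht (-r) = ht r := by
  unfold ht
  rw [Rat.neg_num, Rat.neg_den]
  push_cast
  rw [abs_neg]

/-- Upper bound for the height, without coprimality. -/
lemma ht_le {m n : ℕ} (hm : 0 < m) (hn : 0 < n) : ht ((m : ℚ) / n) ≤ Real.log (max m n) := by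
  unfold ht
  have h1 : (((m : ℚ) / n).num) ∣ (m : ℤ) := by
    have := Rat.num_dvd (m : ℤ) (b := (n : ℤ)) (by exact_mod_cast hn.ne')
    rw [Rat.divInt_eq_div] at this
    simpa using this
  have h2 : (((m : ℚ) / n).den : ℤ) ∣ (n : ℤ) := by
    have := Rat.den_dvd (m : ℤ) (n : ℤ)
    rw [Rat.divInt_eq_div] at this
    simpa using this
  have h3 : |((m : ℚ) / n).num| ≤ (m : ℤ) := by
    have := Int.le_of_dvd (by exact_mod_cast hm) ((abs_dvd _ _).2 h1)
    exact this
  have h4 : (((m : ℚ) / n).den : ℤ) ≤ n := Int.le_of_dvd (by exact_mod_cast hn) h2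
  apply Real.log_le_log
  · exact lt_max_of_lt_right (by exact_mod_cast Rat.pos _)
  · apply max_le_max
    · have : ((|((m : ℚ) / n).num| : ℤ) : ℝ) ≤ ((m : ℤ) : ℝ) := by exact_mod_cast h3
      push_cast at this
      exact this
    · exact_mod_cast h4

/-- The pairs for `B = 3`. -/
lemma pair (k : ℕ) : ∃ x y : ℚ, ∃ u v : ℕ, x ≠ 0 ∧ y ≠ 0 ∧ 0 < u ∧ 0 < v ∧ u < 2 * v ∧
    (x * y ^ 3 + 1).num = -((u ^ 3 * v : ℕ) : ℤ) ∧ rad (u ^ 3 * v) = 15 ∧
    ht x ≤ Real.log 2 + Real.log u - 3 * k * Real.log 7 ∧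
    ht y ≤ Real.log u + k * Real.log 11 := by
  obtain ⟨i, j, hi, hj, hlt, hle, h11, h7⟩ := exists_ij (3 * k)
  set u : ℕ := 3 ^ i with hu
  set v : ℕ := 5 ^ j with hv
  have hupos : 0 < u := by positivity
  have hvpos : 0 < v := by positivity
  have huodd : Odd u := Odd.pow (by decide)
  have hvodd : Odd v := Odd.pow (by decide)
  obtain ⟨u1, hu1⟩ := huodd
  obtain ⟨v1, hv1⟩ := hvodd
  -- a, b, c, d
  obtain ⟨a, ha⟩ : ∃ a, 3 * u = v + 2 * a := ⟨(3 * u - v) / 2, by omega⟩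
  obtain ⟨b, hb⟩ : ∃ b, 3 * u + v = 2 * b := ⟨(3 * u + v) / 2, by omega⟩
  obtain ⟨c, hc⟩ : ∃ c, u + v = 2 * c := ⟨(u + v) / 2, by omega⟩
  obtain ⟨d, hd⟩ : ∃ d, u = v + 2 * d := ⟨(u - v) / 2, by omega⟩
  have ha0 : 0 < a := by omega
  have hb0 : 0 < b := by omega
  have hc0 : 0 < c := by omega
  have hd0 : 0 < d := by omega
  have e3 : (3 : ℤ) ^ (i + 1) = 3 * (u : ℤ) := by rw [hu]; push_cast; ring
  have e5 : (5 : ℤ) ^ j = (v : ℤ) := by rw [hv]; push_cast; ring
  rw [e3, e5] at h11 h7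
  have h11' : 11 ^ (3 * k) ∣ a := by
    have h1 : ((11 ^ (3 * k) : ℕ) : ℤ) ∣ ((a * 2 : ℕ) : ℤ) := by
      have e : (3 * (u : ℤ) - v) = ((a * 2 : ℕ) : ℤ) := by push_cast; omega
      rw [e] at h11
      push_cast at h11 ⊢
      exact (pow_dvd_pow 11 (Nat.le_succ _)).trans h11
    have h2 : 11 ^ (3 * k) ∣ a * 2 := Int.natCast_dvd_natCast.1 h1
    exact (Nat.Coprime.dvd_mul_right (Nat.Coprime.pow_left _ (by norm_num))).1 h2
  have h7' : 7 ^ (3 * k) ∣ b := by
    have h1 : ((7 ^ (3 * k) : ℕ) : ℤ) ∣ ((b * 2 : ℕ) : ℤ) := by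
      have e : (3 * (u : ℤ) + v) = ((b * 2 : ℕ) : ℤ) := by push_cast; omega
      rw [e] at h7
      push_cast at h7 ⊢
      exact (pow_dvd_pow 7 (Nat.le_succ _)).trans h7
    have h2 : 7 ^ (3 * k) ∣ b * 2 := Int.natCast_dvd_natCast.1 h1
    exact (Nat.Coprime.dvd_mul_right (Nat.Coprime.pow_left _ (by norm_num))).1 h2
  obtain ⟨a', ha'⟩ := h11'
  obtain ⟨b', hb'⟩ := h7'
  have ha'0 : 0 < a' := by
    rcases Nat.eq_zero_or_pos a' with h | h
    · rw [h] at ha'; omega
    · exact h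
  have hb'0 : 0 < b' := by
    rcases Nat.eq_zero_or_pos b' with h | h
    · rw [h] at hb'; omega
    · exact h
  -- coprimality
  have huv : Nat.Coprime u v := Nat.Coprime.pow _ _ (by norm_num)
  have hcop1 : ∀ p : ℕ, p.Prime → p ∣ u ^ 3 * v → p ∣ b * d ^ 3 → False := by
    intro p hp h1 h2
    have hpodd : p ≠ 2 := by
      rintro rfl
      have : Odd (u ^ 3 * v) := Odd.mul (Odd.pow ⟨u1, hu1⟩) ⟨v1, hv1⟩
      exact (Nat.not_even_iff_odd.2 this) (even_iff_two_dvd.2 h1)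
    have hcopp : ¬ (p ∣ u ∧ p ∣ v) := fun h => by
      have := Nat.dvd_gcd h.1 h.2
      rw [huv] at this
      exact hp.one_lt.ne' (Nat.dvd_one.1 this)
    have hcopp3 : ¬ (p ∣ 3 ∧ p ∣ v) := fun h => by
      have : p ∣ 5 := hp.dvd_of_dvd_pow h.2
      have h3 : p ≤ 3 := Nat.le_of_dvd (by norm_num) h.1
      interval_cases p <;> omega
    rcases (hp.dvd_mul).1 h1 with h | h
    · have hu' : p ∣ u := hp.dvd_of_dvd_pow h
      rcases (hp.dvd_mul).1 h2 with h' | h'
      · apply hcopp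
        refine ⟨hu', ?_⟩
        have : p ∣ 3 * u + v := by rw [hb]; exact dvd_mul_of_dvd_right h' 2
        exact (Nat.dvd_add_right (dvd_mul_of_dvd_right hu' 3)).1 this
      · have hd' : p ∣ d := hp.dvd_of_dvd_pow h'
        apply hcopp
        refine ⟨hu', ?_⟩
        have : p ∣ v + 2 * d := by rw [← hd]; exact hu'
        exact (Nat.dvd_add_left (dvd_mul_of_dvd_right hd' 2)).1 this
    · rcases (hp.dvd_mul).1 h2 with h' | h'
      · have h4 : p ∣ 3 * u + v := by rw [hb]; exact dvd_mul_of_dvd_right h' 2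
        have h5 : p ∣ 3 * u := (Nat.dvd_add_left h).1 h4
        rcases (hp.dvd_mul).1 h5 with h6 | h6
        · exact hcopp3 ⟨h6, h⟩
        · exact hcopp ⟨h6, h⟩
      · have hd' : p ∣ d := hp.dvd_of_dvd_pow h'
        apply hcopp
        refine ⟨?_, h⟩
        rw [hd]
        exact dvd_add h (dvd_mul_of_dvd_right hd' 2)
  have hcop : Nat.Coprime (u ^ 3 * v) (b * d ^ 3) := Nat.coprime_of_dvd fun p hp h1 h2 =>
    hcop1 p hp h1 h2
  -- the value
  have haQ : (11 : ℚ) ^ (3 * k) * a' = a := by exact_mod_cast ha'.symm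
  have hbQ : (7 : ℚ) ^ (3 * k) * b' = b := by exact_mod_cast hb'.symm
  have ha'Q : (a' : ℚ) ≠ 0 := by exact_mod_cast ha'0.ne'
  have hb'Q : (b' : ℚ) ≠ 0 := by exact_mod_cast hb'0.ne'
  have hcQ : (c : ℚ) ≠ 0 := by exact_mod_cast hc0.ne'
  have hdQ : (d : ℚ) ≠ 0 := by exact_mod_cast hd0.ne'
  have hval : (-((a' : ℚ) / b')) * (((11 ^ k * c : ℕ) : ℚ) / ((7 ^ k * d : ℕ) : ℚ)) ^ 3 + 1 =
      -(((u ^ 3 * v : ℕ) : ℚ) / ((b * d ^ 3 : ℕ) : ℚ)) := by
    have h1 : (a : ℚ) * c ^ 3 = b * d ^ 3 + u ^ 3 * v := by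
      have q1 : (a : ℚ) = (3 * u - v) / 2 := by
        have : (3 * (u : ℚ)) = v + 2 * a := by exact_mod_cast ha
        linarith
      have q2 : (b : ℚ) = (3 * u + v) / 2 := by
        have : (3 * (u : ℚ)) + v = 2 * b := by exact_mod_cast hb
        linarith
      have q3 : (c : ℚ) = (u + v) / 2 := by
        have : (u : ℚ) + v = 2 * c := by exact_mod_cast hc
        linarith
      have q4 : (d : ℚ) = (u - v) / 2 := by
        have : (u : ℚ) = v + 2 * d := by exact_mod_cast hd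
        linarith
      rw [q1, q2, q3, q4]
      ring
    have h2 : (-((a' : ℚ) / b')) * (((11 ^ k * c : ℕ) : ℚ) / ((7 ^ k * d : ℕ) : ℚ)) ^ 3 =
        -((a * c ^ 3) / (b * d ^ 3)) := by
      rw [← haQ, ← hbQ]
      push_cast
      rw [pow_mul', pow_mul']
      field_simp
    have hbQ0 : (b : ℚ) ≠ 0 := by exact_mod_cast hb0.ne'
    rw [h2, h1]
    push_cast
    field_simp
    ring
  refine ⟨-((a' : ℚ) / b'), ((11 ^ k * c : ℕ) : ℚ) / ((7 ^ k * d : ℕ) : ℚ), u, v, ?_, ?_,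
    hupos, hvpos, by omega, ?_, ?_, ?_, ?_⟩
  · exact neg_ne_zero.2 (div_ne_zero ha'Q hb'Q)
  · apply div_ne_zero
    · have : 0 < 11 ^ k * c := by positivity
      exact_mod_cast this.ne'
    · have : 0 < 7 ^ k * d := by positivity
      exact_mod_cast this.ne'
  · rw [hval, Rat.neg_num, num_div (by positivity) hcop]
  · have h1 : (u ^ 3 * v).primeFactors = {3, 5} := by
      rw [Nat.primeFactors_mul (by positivity) (by positivity), Nat.primeFactors_pow _ (by norm_num),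
        hu, hv, Nat.primeFactors_prime_pow (by omega) (by norm_num),
        Nat.primeFactors_prime_pow (by omega) (by norm_num)]
      rfl
    unfold rad
    rw [h1]
    rfl
  · rw [ht_neg]
    have h1 : a' ≤ b' := by
      have h2 : 7 ^ (3 * k) * a' ≤ 7 ^ (3 * k) * b' := by
        calc 7 ^ (3 * k) * a' ≤ 11 ^ (3 * k) * a' :=
              Nat.mul_le_mul_right _ (Nat.pow_le_pow_left (by norm_num) _)
          _ = a := ha'.symm
          _ ≤ b := by omega
          _ = 7 ^ (3 * k) * b' := hb'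
      exact Nat.le_of_mul_le_mul_left h2 (by positivity)
    refine (ht_le ha'0 hb'0).trans ?_
    have h2 : max (a' : ℝ) (b' : ℝ) = b' := max_eq_right (by exact_mod_cast h1)
    rw [h2]
    have hb'R : (0 : ℝ) < b' := by exact_mod_cast hb'0
    have h3 : Real.log b' = Real.log b - 3 * k * Real.log 7 := by
      have : (b : ℝ) = 7 ^ (3 * k) * b' := by exact_mod_cast hb'
      rw [this, Real.log_mul (by positivity) (by positivity), Real.log_pow]
      push_cast
      ring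
    rw [h3]
    have h4 : Real.log b ≤ Real.log 2 + Real.log u := by
      rw [← Real.log_mul (by norm_num) (by exact_mod_cast hupos.ne')]
      apply Real.log_le_log (by exact_mod_cast hb0)
      have : b ≤ 2 * u := by omega
      exact_mod_cast this
    linarith
  · refine (ht_le (by positivity) (by positivity)).trans ?_
    have h1 : max ((11 ^ k * c : ℕ) : ℝ) ((7 ^ k * d : ℕ) : ℝ) ≤ 11 ^ k * u := by
      apply max_le
      · have : 11 ^ k * c ≤ 11 ^ k * u := Nat.mul_le_mul_left _ (by omega)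
        exact_mod_cast this
      · have : 7 ^ k * d ≤ 11 ^ k * u :=
          Nat.mul_le_mul (Nat.pow_le_pow_left (by norm_num) _) (by omega)
        exact_mod_cast this
    have h2 : (0 : ℝ) < max ((11 ^ k * c : ℕ) : ℝ) ((7 ^ k * d : ℕ) : ℝ) := by
      apply lt_max_of_lt_left
      have : 0 < 11 ^ k * c := by positivity
      exact_mod_cast this
    refine (Real.log_le_log h2 h1).trans ?_
    rw [Real.log_mul (by positivity) (by exact_mod_cast hupos.ne'), Real.log_pow]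
    linarith

/-- `B = 3`, `α + ε ≤ 4 / 3` is impossible. -/
lemma not_ineq_three {ε α β : ℝ} (hε : 0 < ε) (hε1 : ε < 1 / 2) (_hα : 0 ≤ α)
    (hs : α + ε ≤ 4 / 3) : ¬ Ineq ε α β 3 := by
  intro h
  set C : ℝ := 3 * ((α * 3 + ε) * (β + Real.log 15)) with hC
  have hl7 : 0 < Real.log 7 := Real.log_pos (by norm_num)
  have hl2 : 0 < Real.log 2 := Real.log_pos (by norm_num)
  obtain ⟨k, hk⟩ := exists_nat_gt ((C + 5 * Real.log 2) / Real.log 7)
  rw [div_lt_iff₀ hl7] at hk
  obtain ⟨x, y, u, v, hx, hy, hu, hv, huv, hnum, hrad, hhx, hhy⟩ := pair k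
  have hNpos : 0 < u ^ 3 * v := by positivity
  have hne1 : x * y ^ 3 ≠ 1 := by
    intro h1
    rw [h1] at hnum
    have h2 : ((1 : ℚ) + 1).num = 2 := by
      rw [show (1 : ℚ) + 1 = ((2 : ℤ) : ℚ) by norm_num, Rat.num_intCast]
    rw [h2] at hnum
    omega
  have hne0 : x * y ^ 3 + 1 ≠ 0 := by
    intro h1
    rw [h1, Rat.num_zero] at hnum
    omega
  have key := h x y hx hy hne1 hne0
  rw [lhs_eq hne0, rad_sum hne0, hnum, Int.natAbs_neg, Int.natAbs_natCast, hrad] at key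
  have huR : (0 : ℝ) < u := by exact_mod_cast hu
  have hvR : (0 : ℝ) < v := by exact_mod_cast hv
  have hlogN : Real.log ((u ^ 3 * v : ℕ) : ℝ) = 3 * Real.log u + Real.log v := by
    push_cast
    rw [Real.log_mul (by positivity) hvR.ne', Real.log_pow]
    norm_num
  have hlogv : Real.log u - Real.log 2 ≤ Real.log v := by
    have : Real.log u ≤ Real.log (2 * v) := by
      apply Real.log_le_log huR
      have : u ≤ 2 * v := huv.le
      exact_mod_cast this
    rw [Real.log_mul (by norm_num) hvR.ne'] at this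
    linarith
  rw [hlogN] at key
  have hx0 := ht_nonneg x
  have hy0 := ht_nonneg y
  have k1 : 3 * (α * ht x) ≤ (4 - 3 * ε) * ht x := by nlinarith
  have k2 : (4 - 3 * ε) * ht x ≤
      (4 - 3 * ε) * (Real.log 2 + Real.log u - 3 * k * Real.log 7) :=
    mul_le_mul_of_nonneg_left hhx (by linarith)
  have k3 : 3 * (ε * ht y) ≤ 3 * (ε * (Real.log u + k * Real.log 11)) := by
    have := mul_le_mul_of_nonneg_left hhy hε.le
    linarith
  have hl11 : Real.log 11 ≤ 2 * Real.log 7 := by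
    have : Real.log 11 ≤ Real.log ((7 : ℝ) ^ 2) := Real.log_le_log (by norm_num) (by norm_num)
    rw [Real.log_pow] at this
    exact_mod_cast this
  have hkR : (0 : ℝ) ≤ k := Nat.cast_nonneg k
  have k4 : 3 * ε * (k * Real.log 11) ≤ 3 * ε * (k * (2 * Real.log 7)) := by
    have : (k : ℝ) * Real.log 11 ≤ k * (2 * Real.log 7) := mul_le_mul_of_nonneg_left hl11 hkR
    exact mul_le_mul_of_nonneg_left this (by linarith)
  have hK7 : 0 ≤ (k : ℝ) * Real.log 7 := by positivity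
  push_cast at key
  have key2 : 3 * Real.log u + Real.log v ≤ 3 * (α * ht x) + 3 * (ε * ht y) + C := by
    rw [hC]
    linarith
  have k5 : 4 * Real.log u - Real.log 2 ≤
      (4 - 3 * ε) * (Real.log 2 + Real.log u - 3 * k * Real.log 7) +
        3 * (ε * (Real.log u + k * Real.log 11)) + C := by linarith
  have k6 : (12 - 15 * ε) * (k * Real.log 7) ≤ (5 - 3 * ε) * Real.log 2 + C := by linarith
  have k7 : (k : ℝ) * Real.log 7 ≤ (12 - 15 * ε) * (k * Real.log 7) := by nlinarith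
  have k8 : (5 - 3 * ε) * Real.log 2 ≤ 5 * Real.log 2 := by nlinarith
  linarith

end Pool.Agent.K3h42.PH
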