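import Pool.Agent.H78R2.Phil.Main

/-! The abc conjecture gives Philippon's inequality for all constants which are not excluded. -/

set_option autoImplicit false

namespace Pool.Agent.K3h42.PH

open Pool.Agent.H78R2.Abc Pool.Agent.H78R2.Phil

lemma log_num_le {q : ℚ} (hq : q ≠ 0) : Real.log q.num.natAbs ≤ ht q := by
  have : (0 : ℝ) < q.num.natAbs := by exact_mod_cast Int.natAbs_pos.2 (Rat.num_ne_zero.2 hq)
  apply Real.log_le_log this
  rw [Nat.cast_natAbs]
  simp

lemma log_den_le (q : ℚ) : Real.log q.den ≤ ht q := by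
  have : (0 : ℝ) < q.den := by exact_mod_cast q.pos
  exact Real.log_le_log this (le_max_right _ _)

lemma ht_cases (q : ℚ) : ht q = Real.log q.num.natAbs ∨ ht q = Real.log q.den := by
  unfold ht
  rcases max_choice |(q.num : ℝ)| (q.den : ℝ) with h | h
  · left; rw [h, Nat.cast_natAbs]; simp
  · right; rw [h]

/-- The lowest terms of `x y ^ B`. -/
lemma lowest {x y : ℚ} (hx : x ≠ 0) (hy : y ≠ 0) (B : ℕ) :
    ∃ g₁ g₂ a' b' c' d' : ℕ, 0 < g₁ ∧ 0 < g₂ ∧ 0 < a' ∧ 0 < b' ∧ 0 < c' ∧ 0 < d' ∧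
      x.num.natAbs = g₁ * a' ∧ x.den = g₂ * b' ∧ y.num.natAbs ^ B = g₂ * c' ∧
      y.den ^ B = g₁ * d' ∧ (x * y ^ B).num.natAbs = a' * c' ∧ (x * y ^ B).den = b' * d' := by
  set a := x.num.natAbs with ha
  set b := x.den with hb
  set c := y.num.natAbs with hc
  set d := y.den with hd
  have ha0 : 0 < a := Int.natAbs_pos.2 (Rat.num_ne_zero.2 hx)
  have hc0 : 0 < c := Int.natAbs_pos.2 (Rat.num_ne_zero.2 hy)
  have hb0 : 0 < b := x.pos
  have hd0 : 0 < d := y.pos
  have hab : Nat.Coprime a b := x.reduced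
  have hcd : Nat.Coprime c d := y.reduced
  obtain ⟨g₁, a', d', hg1, hcop1, ea, ed⟩ := Nat.exists_coprime' (m := a) (n := d ^ B)
    (Nat.gcd_pos_of_pos_left _ ha0)
  obtain ⟨g₂, b', c', hg2, hcop2, eb, ec⟩ := Nat.exists_coprime' (m := b) (n := c ^ B)
    (Nat.gcd_pos_of_pos_left _ hb0)
  have ha'0 : 0 < a' := Nat.pos_of_ne_zero fun h => by rw [h, zero_mul] at ea; omega
  have hb'0 : 0 < b' := Nat.pos_of_ne_zero fun h => by rw [h, zero_mul] at eb; omega
  have hd'0 : 0 < d' := Nat.pos_of_ne_zero fun h => by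
    rw [h, zero_mul] at ed; exact (pow_pos hd0 B).ne' ed
  have hc'0 : 0 < c' := Nat.pos_of_ne_zero fun h => by
    rw [h, zero_mul] at ec; exact (pow_pos hc0 B).ne' ec
  have hcop : Nat.Coprime (a' * c') (b' * d') := by
    have h1 : Nat.Coprime a' b' :=
      Nat.Coprime.coprime_dvd_left (Dvd.intro _ ea.symm)
        (Nat.Coprime.coprime_dvd_right (Dvd.intro _ eb.symm) hab)
    have h2 : Nat.Coprime c' d' :=
      Nat.Coprime.coprime_dvd_left (Dvd.intro _ ec.symm)
        (Nat.Coprime.coprime_dvd_right (Dvd.intro _ ed.symm) (Nat.Coprime.pow _ _ hcd))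
    exact Nat.Coprime.mul_left (Nat.Coprime.mul_right h1 hcop1)
      (Nat.Coprime.mul_right hcop2.symm h2)
  have hval : |x * y ^ B| = ((a' * c' : ℕ) : ℚ) / ((b' * d' : ℕ) : ℚ) := by
    have hx' : |x| = (a : ℚ) / b := by
      conv_lhs => rw [← Rat.num_div_den x]
      rw [abs_div, Nat.abs_cast, ha, Nat.cast_natAbs]
      push_cast
      rfl
    have hy' : |y| = (c : ℚ) / d := by
      conv_lhs => rw [← Rat.num_div_den y]
      rw [abs_div, Nat.abs_cast, hc, Nat.cast_natAbs]
      push_cast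
      rfl
    have q1 : (a : ℚ) = a' * g₁ := by exact_mod_cast ea
    have q2 : (b : ℚ) = b' * g₂ := by exact_mod_cast eb
    have q3 : (c : ℚ) ^ B = c' * g₂ := by exact_mod_cast ec
    have q4 : (d : ℚ) ^ B = d' * g₁ := by exact_mod_cast ed
    have g1 : (g₁ : ℚ) ≠ 0 := by exact_mod_cast hg1.ne'
    have g2 : (g₂ : ℚ) ≠ 0 := by exact_mod_cast hg2.ne'
    have b0 : (b' : ℚ) ≠ 0 := by exact_mod_cast hb'0.ne'
    have d0 : (d' : ℚ) ≠ 0 := by exact_mod_cast hd'0.ne'
    rw [abs_mul, abs_pow, hx', hy', div_pow, q1, q2, q3, q4]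
    push_cast
    field_simp
  have hn := num_div (m := a' * c') (n := b' * d') (by positivity) hcop
  have hd := den_div (m := a' * c') (n := b' * d') (by positivity) hcop
  rw [← hval] at hn hd
  refine ⟨g₁, g₂, a', b', c', d', hg1, hg2, ha'0, hb'0, hc'0, hd'0, by rw [ea]; ring,
    by rw [eb]; ring, by rw [ec]; ring, by rw [ed]; ring, ?_, ?_⟩
  · rw [Rat.num_abs_eq_abs_num] at hn
    have h5 := congrArg Int.natAbs hn
    rwa [Int.natAbs_abs, Int.natAbs_natCast] at h5
  · rwa [Rat.den_abs_eq_den] at hd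

/-- The consequence of abc used here. -/
lemma bound {δ κ : ℝ} (hδ : 0 ≤ δ) (hκ : 1 ≤ κ) (h : AbcWith (1 + δ) κ) {x y : ℚ} (hx : x ≠ 0)
    (hy : y ≠ 0) {B : ℕ} (hN : x * y ^ B + 1 ≠ 0) :
    ((B : ℝ) - 2 - 2 * δ) * ht y ≤ Real.log κ + (1 + 2 * δ) * ht x +
      (1 + δ) * Real.log (rad (x * y ^ B + 1).num.natAbs) := by
  obtain ⟨g₁, g₂, a', b', c', d', hg1, hg2, ha', hb', hc', hd', ea, eb, ec, ed, en, em⟩ :=
    lowest hx hy B
  set r := x * y ^ B with hr
  have hr0 : r ≠ 0 := mul_ne_zero hx (pow_ne_zero _ hy)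
  have hA : r.num ≠ 0 := Rat.num_ne_zero.2 hr0
  have hNn : r.num + r.den ≠ 0 := by
    rw [← num_add_one]; exact Rat.num_ne_zero.2 hN
  obtain ⟨h1, h2, -⟩ := signed h hA r.pos r.reduced hNn
  rw [num_add_one]
  set N := (r.num + r.den).natAbs with hNdef
  have hN0 : N ≠ 0 := by rw [hNdef]; simpa using hNn
  rw [en, em] at h1 h2
  have hc0 : 0 < y.num.natAbs := Int.natAbs_pos.2 (Rat.num_ne_zero.2 hy)
  have hd0 : 0 < y.den := y.pos
  -- the radical
  have hrad : rad (a' * c' * (b' * d') * N) ≤ a' * y.num.natAbs * (b' * y.den) * rad N := by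
    refine (rad_mul_le (by positivity) hN0).trans (Nat.mul_le_mul_right _ ?_)
    refine (rad_mul_le (by positivity) (by positivity)).trans (Nat.mul_le_mul ?_ ?_)
    · refine (rad_mul_le (by positivity) (by positivity)).trans
        (Nat.mul_le_mul (rad_le ha'.ne') ?_)
      exact (rad_le_of_dvd (Dvd.intro_left _ ec.symm) (by positivity)).trans
        (rad_pow_le _ _ hc0.ne')
    · refine (rad_mul_le (by positivity) (by positivity)).trans
        (Nat.mul_le_mul (rad_le hb'.ne') ?_)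
      exact (rad_le_of_dvd (Dvd.intro_left _ ed.symm) (by positivity)).trans
        (rad_pow_le _ _ hd0.ne')
  set R : ℝ := (rad (a' * c' * (b' * d') * N) : ℝ) with hR
  have hRpos : 0 < R := by rw [hR]; exact_mod_cast rad_pos _
  have pa : (0 : ℝ) < a' := by exact_mod_cast ha'
  have pb : (0 : ℝ) < b' := by exact_mod_cast hb'
  have pc : (0 : ℝ) < c' := by exact_mod_cast hc'
  have pd : (0 : ℝ) < d' := by exact_mod_cast hd'
  have pg1 : (0 : ℝ) < g₁ := by exact_mod_cast hg1
  have pg2 : (0 : ℝ) < g₂ := by exact_mod_cast hg2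
  have pC : (0 : ℝ) < y.num.natAbs := by exact_mod_cast hc0
  have pD : (0 : ℝ) < y.den := by exact_mod_cast hd0
  have pN : (0 : ℝ) < rad N := by exact_mod_cast rad_pos N
  have hlR : Real.log R ≤ Real.log a' + Real.log y.num.natAbs + (Real.log b' + Real.log y.den) +
      Real.log (rad N) := by
    have : R ≤ (a' : ℝ) * y.num.natAbs * (b' * y.den) * rad N := by
      rw [hR]; exact_mod_cast hrad
    refine (Real.log_le_log hRpos this).trans ?_
    rw [Real.log_mul (by positivity) (by positivity), Real.log_mul (by positivity) (by positivity),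
      Real.log_mul (by positivity) (by positivity), Real.log_mul (by positivity) (by positivity)]
  have hl : ∀ t : ℝ, 0 < t → t ≤ κ * R ^ (1 + δ) →
      Real.log t ≤ Real.log κ + (1 + δ) * (Real.log a' + Real.log y.num.natAbs +
        (Real.log b' + Real.log y.den) + Real.log (rad N)) := by
    intro t ht0 ht
    refine (Real.log_le_log ht0 ht).trans ?_
    rw [Real.log_mul (by positivity) (by positivity), Real.log_rpow hRpos]
    have := mul_le_mul_of_nonneg_left hlR (show 0 ≤ 1 + δ by linarith)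
    linarith
  push_cast at h1 h2
  have l1 := hl _ (by positivity) h1
  have l2 := hl _ (by positivity) h2
  rw [Real.log_mul (by positivity) (by positivity)] at l1 l2
  -- logarithms of the factorisations
  have fa : Real.log x.num.natAbs = Real.log g₁ + Real.log a' := by
    rw [ea]; push_cast; rw [Real.log_mul (by positivity) (by positivity)]
  have fb : Real.log x.den = Real.log g₂ + Real.log b' := by
    rw [eb]; push_cast; rw [Real.log_mul (by positivity) (by positivity)]
  have fc : B * Real.log y.num.natAbs = Real.log g₂ + Real.log c' := by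
    rw [← Real.log_pow, ← Real.log_mul (by positivity) (by positivity)]
    congr 1
    exact_mod_cast ec
  have fd : B * Real.log y.den = Real.log g₁ + Real.log d' := by
    rw [← Real.log_pow, ← Real.log_mul (by positivity) (by positivity)]
    congr 1
    exact_mod_cast ed
  have c1 := log_num_le hx
  have c2 := log_den_le x
  have c3 := log_num_le hy
  have c4 := log_den_le y
  have g1p : 0 ≤ Real.log g₁ := Real.log_nonneg (by exact_mod_cast hg1)
  have g2p : 0 ≤ Real.log g₂ := Real.log_nonneg (by exact_mod_cast hg2)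
  have ap : 0 ≤ Real.log a' := Real.log_nonneg (by exact_mod_cast ha')
  have bp : 0 ≤ Real.log b' := Real.log_nonneg (by exact_mod_cast hb')
  set ρ := Real.log (rad N)
  set la := Real.log a'
  set lb := Real.log b'
  set lg1 := Real.log g₁
  set lg2 := Real.log g₂
  set C := Real.log y.num.natAbs
  set D := Real.log y.den
  have m1 : (1 + δ) * C ≤ (1 + δ) * ht y := mul_le_mul_of_nonneg_left c3 (by linarith)
  have m2 : (1 + δ) * D ≤ (1 + δ) * ht y := mul_le_mul_of_nonneg_left c4 (by linarith)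
  have n1 : 0 ≤ δ * lg1 := mul_nonneg hδ g1p
  have n2 : 0 ≤ δ * lg2 := mul_nonneg hδ g2p
  rcases ht_cases y with hc | hc
  · -- `H(y)` is the numerator
    have k1 : la + (B * C - lg2) ≤ Real.log κ + (1 + δ) * (la + C + (lb + D) + ρ) := by linarith
    have k2 : δ * la ≤ δ * ht x := mul_le_mul_of_nonneg_left (by linarith) hδ
    have k3 : (1 + δ) * lb + lg2 ≤ (1 + δ) * ht x := by
      have : (1 + δ) * (lg2 + lb) ≤ (1 + δ) * ht x :=
        mul_le_mul_of_nonneg_left (by linarith) (by linarith)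
      linarith
    have k4 : (B : ℝ) * ht y = B * C := by rw [hc]
    linarith
  · have k1 : lb + (B * D - lg1) ≤ Real.log κ + (1 + δ) * (la + C + (lb + D) + ρ) := by linarith
    have k2 : δ * lb ≤ δ * ht x := mul_le_mul_of_nonneg_left (by linarith) hδ
    have k3 : (1 + δ) * la + lg1 ≤ (1 + δ) * ht x := by
      have : (1 + δ) * (lg1 + la) ≤ (1 + δ) * ht x :=
        mul_le_mul_of_nonneg_left (by linarith) (by linarith)
      linarith
    have k4 : (B : ℝ) * ht y = B * D := by rw [hc]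
    linarith

/-- The trivial bound for the numerator. -/
lemma num_bound {x y : ℚ} (hx : x ≠ 0) (hy : y ≠ 0) {B : ℕ} (hN : x * y ^ B + 1 ≠ 0) :
    Real.log (x * y ^ B + 1).num.natAbs ≤ Real.log 2 + ht x + B * ht y := by
  have hNn : (x * y ^ B).num + (x * y ^ B).den ≠ 0 := by
    rw [← num_add_one]; exact Rat.num_ne_zero.2 hN
  rw [num_add_one]
  have ha0 : 0 < x.num.natAbs := Int.natAbs_pos.2 (Rat.num_ne_zero.2 hx)
  have hc0 : 0 < y.num.natAbs := Int.natAbs_pos.2 (Rat.num_ne_zero.2 hy)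
  have h1 : (x * y ^ B).num.natAbs ≤ x.num.natAbs * y.num.natAbs ^ B :=
    Nat.le_of_dvd (by positivity) (num_dvd x y B)
  have h2 : (x * y ^ B).den ≤ x.den * y.den ^ B :=
    Nat.le_of_dvd (by have := x.pos; have := y.pos; positivity) (den_dvd x y B)
  have h3 : ((x * y ^ B).num + (x * y ^ B).den).natAbs ≤
      x.num.natAbs * y.num.natAbs ^ B + x.den * y.den ^ B := by omega
  have e1 : ((x.num.natAbs * y.num.natAbs ^ B : ℕ) : ℝ) ≤ Real.exp (ht x + B * ht y) := by
    push_cast
    rw [Real.exp_add, mul_comm (B : ℝ), Real.exp_mul]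
    have p1 : ((x.num.natAbs : ℕ) : ℝ) ≤ Real.exp (ht x) := by
      rw [← Real.log_le_iff_le_exp (by exact_mod_cast ha0)]
      exact log_num_le hx
    have p2 : ((y.num.natAbs : ℕ) : ℝ) ≤ Real.exp (ht y) := by
      rw [← Real.log_le_iff_le_exp (by exact_mod_cast hc0)]
      exact log_num_le hy
    rw [Real.rpow_natCast]
    gcongr
  have e2 : ((x.den * y.den ^ B : ℕ) : ℝ) ≤ Real.exp (ht x + B * ht y) := by
    push_cast
    rw [Real.exp_add, mul_comm (B : ℝ), Real.exp_mul]
    have p1 : ((x.den : ℕ) : ℝ) ≤ Real.exp (ht x) := by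
      rw [← Real.log_le_iff_le_exp (by exact_mod_cast x.pos)]
      exact log_den_le x
    have p2 : ((y.den : ℕ) : ℝ) ≤ Real.exp (ht y) := by
      rw [← Real.log_le_iff_le_exp (by exact_mod_cast y.pos)]
      exact log_den_le y
    rw [Real.rpow_natCast]
    gcongr
  have e3 : ((((x * y ^ B).num + (x * y ^ B).den).natAbs : ℕ) : ℝ) ≤
      2 * Real.exp (ht x + B * ht y) := by
    have : ((((x * y ^ B).num + (x * y ^ B).den).natAbs : ℕ) : ℝ) ≤
        ((x.num.natAbs * y.num.natAbs ^ B + x.den * y.den ^ B : ℕ) : ℝ) := by exact_mod_cast h3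
    rw [Nat.cast_add] at this
    linarith
  have e4 : (0 : ℝ) < ((((x * y ^ B).num + (x * y ^ B).den).natAbs : ℕ) : ℝ) := by
    exact_mod_cast Int.natAbs_pos.2 hNn
  refine (Real.log_le_log e4 e3).trans ?_
  rw [Real.log_mul (by norm_num) (Real.exp_pos _).ne', Real.log_exp]
  linarith

/-- Under abc with a suitable exponent the inequality holds. -/
lemma ineq_of {δ κ : ℝ} (hδ : 0 < δ) (hδ1 : δ ≤ 1 / 4) (hκ : 1 ≤ κ) (h : AbcWith (1 + δ) κ)
    {B : ℕ} (hB : 3 ≤ B) {α ε : ℝ} (hα : 1 ≤ α) (_hε : 0 < ε) (hε1 : ε < 1)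
    (hgap : (1 - ε) * B * (1 + 2 * δ) ≤ (α * B - 1) * (B - 2 - 2 * δ)) :
    Ineq ε α (Real.log 2 + α * B * Real.log κ) B := by
  intro x y hx hy _ hN
  rw [lhs_eq hN, rad_sum hN]
  have h1 := bound hδ.le hκ h hx hy hN
  have h2 := num_bound hx hy hN
  have hB0 : (3 : ℝ) ≤ B := by exact_mod_cast hB
  have hX := ht_nonneg x
  have hY := ht_nonneg y
  have hlκ : 0 ≤ Real.log κ := Real.log_nonneg hκ
  have hl2 : 0 < Real.log 2 := Real.log_pos (by norm_num)
  have hR : 0 ≤ Real.log (rad (x * y ^ B + 1).num.natAbs) := by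
    apply Real.log_nonneg
    exact_mod_cast rad_pos _
  set ρ := Real.log (rad (x * y ^ B + 1).num.natAbs)
  set X := ht x
  set Y := ht y
  have hq : 0 < (B : ℝ) - 2 - 2 * δ := by linarith
  set P : ℝ := (1 - ε) * B / (B - 2 - 2 * δ) with hP
  have h1ε : 0 < 1 - ε := by linarith
  have hP0 : 0 ≤ P := by rw [hP]; positivity
  have hPgap : P * (1 + 2 * δ) ≤ α * B - 1 := by
    rw [hP, div_mul_eq_mul_div, div_le_iff₀ hq]
    exact hgap
  have hPq : P * ((B : ℝ) - 2 - 2 * δ) = (1 - ε) * B := by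
    rw [hP]; field_simp
  have s1 : (1 - ε) * B * Y ≤ P * Real.log κ + P * (1 + 2 * δ) * X + P * (1 + δ) * ρ := by
    have := mul_le_mul_of_nonneg_left h1 hP0
    rw [← mul_assoc, hPq] at this
    linarith
  have hPδ : 0 ≤ P * δ := mul_nonneg hP0 hδ.le
  have hP1 : P * (1 + δ) ≤ α * B - 1 := by linarith
  have hP2 : P ≤ α * B - 1 := by linarith
  have hT : α * B ≤ B * (α * B + ε) := by nlinarith
  have hT1 : 1 ≤ B * (α * B + ε) := by nlinarith
  have s2 : P * (1 + 2 * δ) * X ≤ (α * B - 1) * X := mul_le_mul_of_nonneg_right hPgap hX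
  have s3 : P * (1 + δ) * ρ ≤ B * (α * B + ε) * ρ :=
    mul_le_mul_of_nonneg_right (by linarith) hR
  have s4 : P * Real.log κ ≤ α * B * Real.log κ := mul_le_mul_of_nonneg_right (by linarith) hlκ
  have s5 : 1 * (Real.log 2 + α * B * Real.log κ) ≤
      B * (α * B + ε) * (Real.log 2 + α * B * Real.log κ) :=
    mul_le_mul_of_nonneg_right hT1 (by positivity)
  have e : (B : ℝ) * (α * X + ε * Y + (α * B + ε) * (Real.log 2 + α * B * Real.log κ + ρ)) =
      α * B * X + ε * B * Y + B * (α * B + ε) * (Real.log 2 + α * B * Real.log κ) +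
        B * (α * B + ε) * ρ := by ring
  rw [e]
  linarith

end Pool.Agent.K3h42.PH
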